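import Pool.Agent.Q93.LT.Stm

/-! # Project LT (helper93), job FIN (helper177) -/

set_option autoImplicit false

open MeasureTheory Set Filter Topology Real
open scoped RealInnerProductSpace

namespace Pool.Agent.Q93.LT

open Pool.Helper490.Sech

namespace FIN177

/-- substitution -/
lemma subst (f : ℝ → ℝ) {b : ℝ} (hb : 0 < b) (a : ℝ) :
    ∫ x, f (b * (x - a)) = b⁻¹ * ∫ x, f x := by
  have h1 : ∫ x, f (b * (x - a)) = ∫ x, f (b * x) :=
    integral_sub_right_eq_self (fun x => f (b * x)) a
  rw [h1, Measure.integral_comp_mul_left, abs_of_pos (inv_pos.2 hb), smul_eq_mul]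

lemma int_subst {f : ℝ → ℝ} (hf : Integrable f) {b : ℝ} (hb : 0 < b) (a : ℝ) :
    Integrable (fun x => f (b * (x - a))) := by
  have h1 : Integrable (fun x => f (b * x)) := hf.comp_mul_left' hb.ne'
  exact h1.comp_sub_right a

lemma sqrt_eq {b : ℝ} (hb : 0 < b) (y : ℝ) : √(b / (π * cosh y)) = √(b / π) * w y := by
  have h1 : b / (π * cosh y) = b / π * (cosh y)⁻¹ := by
    have := cosh_pos y
    field_simp
  rw [h1, Real.sqrt_mul (by positivity), Real.sqrt_inv]
  rfl

end FIN177

open FIN177

theorem fin : S_FIN := by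
  intro z b a hz hb v g hv hg hvg
  have hbp : 0 < b / π := by positivity
  have hv1 : ∀ x, v x = z * ((√(b / π) * w (b * (x - a)) : ℝ) : ℂ) := fun x => by
    rw [hv, sqrt_eq hb]
  have hv2 : ∀ x, ‖v x‖ ^ 2 = b / π * w (b * (x - a)) ^ 2 := by
    intro x
    rw [hv1, norm_mul, hz, one_mul, Complex.norm_real, Real.norm_eq_abs, sq_abs, mul_pow,
      Real.sq_sqrt hbp.le]
  have hcont : Continuous v := by
    have h1 : v = fun x => z * ((√(b / π) * w (b * (x - a)) : ℝ) : ℂ) := funext hv1
    rw [h1]
    have h2 := w_cont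
    fun_prop
  have hderiv : ∀ x, HasDerivAt v (z * ((√(b / π) * (w' (b * (x - a)) * b) : ℝ) : ℂ)) x := by
    intro x
    have h1 : v = fun x => z * ((√(b / π) * w (b * (x - a)) : ℝ) : ℂ) := funext hv1
    rw [h1]
    have h2 : HasDerivAt (fun x : ℝ => b * (x - a)) b x := by
      have := ((hasDerivAt_id x).sub_const a).const_mul b
      rwa [mul_one] at this
    have h3 : HasDerivAt (w ∘ fun x : ℝ => b * (x - a)) (w' (b * (x - a)) * b) x :=
      HasDerivAt.comp x (w_deriv (b * (x - a))) h2
    exact ((h3.const_mul (√(b / π))).ofReal_comp).const_mul z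
  -- the given weak derivative is the derivative
  have hloc : LocallyIntegrable g volume := hg.locallyIntegrable (by norm_num)
  have hae : ∀ᵐ x, g x = z * ((√(b / π) * (w' (b * (x - a)) * b) : ℝ) : ℂ) := by
    filter_upwards [LocallyIntegrable.ae_hasDerivAt_integral hloc] with x hx
    have h1 := hx 0
    have h2 : HasDerivAt (fun t => v t - v 0) (g x) x := by
      refine h1.congr_of_eventuallyEq (Eventually.of_forall fun t => ?_)
      exact hvg 0 t
    have h3 := (hderiv x).sub_const (v 0)
    exact h2.unique h3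
  have hg2 : ∀ᵐ x, ‖g x‖ ^ 2 = b / π * b ^ 2 * w' (b * (x - a)) ^ 2 := by
    filter_upwards [hae] with x hx
    rw [hx, norm_mul, hz, one_mul, Complex.norm_real, Real.norm_eq_abs, sq_abs, mul_pow, mul_pow,
      Real.sq_sqrt hbp.le]
    ring
  have hint : Integrable (fun x => ‖v x‖ ^ 2) := by
    simp only [hv2]
    exact (int_subst int_w_sq hb a).const_mul _
  refine ⟨?_, ?_, ?_, ?_⟩
  · exact (memLp_two_iff_integrable_sq_norm hcont.aestronglyMeasurable).2 hint
  · simp only [hv2]
    rw [integral_const_mul, subst (fun y => w y ^ 2) hb a, integral_w_sq]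
    field_simp
  · have h1 : ∀ x, (‖v x‖ ^ 2) ^ 3 = (b / π) ^ 3 * (w (b * (x - a)) ^ 2) ^ 3 := by
      intro x
      rw [hv2, mul_pow]
    simp only [h1]
    rw [integral_const_mul, subst (fun y => (w y ^ 2) ^ 3) hb a, integral_w_six]
    field_simp
  · rw [integral_congr_ae hg2, integral_const_mul, subst (fun y => w' y ^ 2) hb a, integral_w'_sq]
    field_simp

end Pool.Agent.Q93.LT
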